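import Mathlib
import Pool.Agent.R439.V5B

set_option autoImplicit false

namespace Pool.Agent.Results.MP_995bae_nt.HalfRange

open Finset Pool.Agent.R439

/-- The sum `S(p)` of the problem. -/
def S (p : ℕ) : ℚ :=
  ∑ k ∈ range ((p - 1) / 2 + 1),
    (205 * (k : ℚ) ^ 2 + 160 * k + 32) * (-1) ^ k * ((2 * k).choose k : ℚ) ^ 5

/-- **Answer to Q1** (positive): for every prime `p > 3`,
`S(p) ≡ 32 p^2 + (896/3) p^5 B_{p-3} (mod p^6)`. -/
theorem result : ∀ p : ℕ, p.Prime → 3 < p →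
    ∃ t : ℚ, S p - (32 * (p : ℚ) ^ 2 + 896 / 3 * (p : ℚ) ^ 5 * bernoulli (p - 3)) =
      (p : ℚ) ^ 6 * t ∧ ¬ p ∣ t.den := by
  intro p hp h3
  have : Fact p.Prime := ⟨hp⟩
  obtain ⟨m, hm⟩ : ∃ m, p = 2 * m + 1 := by
    rcases hp.eq_two_or_odd' with h | h
    · omega
    · obtain ⟨m, hm⟩ := h
      exact ⟨m, hm⟩
  have h := PL.S4.exists_of_I (PL.V5.final hm h3)
  have e : S p = V5.UU m := by
    unfold S V5.UU
    rw [show (p - 1) / 2 = m by omega]
    refine sum_congr rfl fun k _ => ?_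
    rw [Nat.centralBinom_eq_two_mul_choose]
  rw [e]
  exact h

end Pool.Agent.Results.MP_995bae_nt.HalfRange
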